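import Mathlib
import Pool.Agent.N251.GA.Leaves2
import Pool.Agent.N999.GA.Z
import Pool.Agent.N251.GA.Sym4
import Pool.Agent.N835.GA.SymFwd
import Pool.Agent.N787.GA.SymG
import Pool.Agent.N49.GA.RadGZ

/-!
# The abc conjecture over the Gaussian integers for conjugate triples

Restricting Q1 to rational integers gives the classical abc conjecture. Here Q1 is restricted to the
triples `a + ā = c`, where `a` is a Gaussian integer coprime to its conjugate `ā`, and this restriction
of Q1 is also equivalent to the classical abc conjecture; one may moreover ask that a given `N ≥ 1`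
divides `c`. In terms of rational integers: the classical abc conjecture is equivalent to
`rad(t (s ² + t ²)) ≥ κ max (|s|, |t|) ^ (1 - ε)` for coprime `s`, `t`.
-/

set_option autoImplicit false

namespace Pool.Agent.Results.MP_dc323a_nt.ConjugateTriples

/-- `rad(n)`: the product of `|Q|` over the Gaussian primes `Q` dividing `n`, one from each class of
associates, namely the one with `Re Q > 0` and `Im Q ≥ 0` -/
noncomputable def rad (n : GaussianInt) : ℝ :=
  ∏ᶠ Q ∈ {Q : GaussianInt | Prime Q ∧ Q ∣ n ∧ (0 < Q.re ∧ 0 ≤ Q.im)}, ‖GaussianInt.toComplex Q‖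

/-- the inequality of Q1, for every `ε > 0`, for the triples `a + ā = c` with `N ∣ c`, where `a` is
coprime to its conjugate `ā = star a` and `c ≠ 0` -/
def AbcConj (N : ℕ) : Prop := ∀ ε : ℝ, 0 < ε → ∃ κ : ℝ, 0 < κ ∧ ∀ a : GaussianInt,
  IsCoprime a (star a) → a + star a ≠ 0 → (N : GaussianInt) ∣ a + star a →
    κ * (max (max ‖GaussianInt.toComplex a‖ ‖GaussianInt.toComplex (star a)‖)
      ‖GaussianInt.toComplex (a + star a)‖) ^ (1 - ε) ≤ rad (a * star a * (a + star a))

/-- the classical abc conjecture: for every `ε > 0` there is `κ > 0` with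
`κ max (|a|, |b|, |c|) ^ (1 - ε) ≤ ∏ p` (over the primes `p` dividing `a b c`) for all coprime rational
integers `a + b = c` with `a b c ≠ 0` -/
def AbcClassical : Prop := ∀ ε : ℝ, 0 < ε → ∃ κ : ℝ, 0 < κ ∧ ∀ a b c : ℤ, IsCoprime a b →
  a + b = c → a * b * c ≠ 0 →
    κ * (max (max |(a : ℝ)| |(b : ℝ)|) |(c : ℝ)|) ^ (1 - ε) ≤
      ∏ p ∈ (a * b * c).natAbs.primeFactors, (p : ℝ)

/-- **Q1 for conjugate triples.** For every `N ≥ 1` the restriction of the abc conjecture over `ℤ[i]`
to the triples `a + ā = c`, `a` coprime to `ā`, with `N ∣ c`, is equivalent to the classical abc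
conjecture over `ℤ`. -/
theorem result (N : ℕ) (hN : 1 ≤ N) : AbcConj N ↔ AbcClassical :=
  Pool.Agent.N787.GA.SymG.t Pool.Agent.N999.GA.Z.t Pool.Agent.N251.GA.Sym4.t
    Pool.Agent.N835.GA.SymFwd.t Pool.Agent.N49.GA.RadGZ.t N hN

end Pool.Agent.Results.MP_dc323a_nt.ConjugateTriples
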