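import Mathlib
import Pool.Agent.N906.QP.AllL

/-!
# The abc conjecture over the Gaussian integers and other number fields: the exact number of the violators in every open
# set, up to the second order term

`K` is a number field of degree `d` (for instance `ℚ(i)`, `d = 2`). A triple `a + b = c` of coprime Gaussian integers, up to units,
is given by `x = a/c`, `1 - x = b/c`; for `K = ℚ(i)` one has `exp h(x) = max(|a|, |c|)` and
`N(x) = cond(x) + cond(1/x) + cond(x - 1) = log rad(abc)`. Let `0 < κ < 1`, `c₀` real and let `Ω` be a polydisc in the product of the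
completions at the infinite places (for `ℚ(i)`: a disc). The number `V(B)` of the `x ∈ K` in `Ω`, `x ≠ 0, 1`, of height at most
`B`, with `N(x) ≤ (3 - κ) h(x) + c₀` satisfies

  `log V(B) = d (2 - κ) log B + (√(24 κ d) + o(1)) √(log B / log log B)`.
-/

set_option autoImplicit false

namespace Pool.Agent.Results.MP_dc323a_nt.LocalSecondOrder

open NumberField IsDedekindDomain Filter Topology

section

variable {K : Type} [Field K] [NumberField K]

/-- the absolute logarithmic height (`Height.logHeight₁` is relative to `K`) -/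
noncomputable def height (x : K) : ℝ := Height.logHeight₁ x / (Module.finrank ℚ K : ℝ)

/-- the sum of `log N(v) / [K : ℚ]` over the primes `v` with `|x|_v < 1` (the logarithm of the radical of the numerator of `x`;
for `K = ℚ(i)`, `log N(v) / 2 = log |Q|` for a Gaussian prime `Q`) -/
noncomputable def cond (x : K) : ℝ :=
  (∑ᶠ (v : HeightOneSpectrum (𝓞 K)) (_ : FinitePlace.mk v x < 1),
    Real.log (Ideal.absNorm v.asIdeal : ℝ)) / (Module.finrank ℚ K : ℝ)

/-- `N(x)`, the logarithm of the radical of `a b c` for `x = a/c`, `1 - x = b/c` -/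
noncomputable def total (x : K) : ℝ := cond x + cond x⁻¹ + cond (x - 1)

/-- the `x ≠ 0, 1` of height at most `B` with `|x - z_w|_w < η` for all infinite places `w` and `N(x) ≤ (3 - κ) h(x) + c₀` -/
def Points (z : InfinitePlace K → ℂ) (η κ c₀ B : ℝ) : Set K :=
  {x | x ≠ 0 ∧ x ≠ 1 ∧ Real.exp (height x) ≤ B ∧
    (∀ w : InfinitePlace K, ‖w.embedding x - z w‖ < η) ∧ total x ≤ (3 - κ) * height x + c₀}

end

/-- **Theorem.** Let `K` be a number field of degree `d`, `z_w` a complex number for each infinite place `w` (real for real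
`w`), `η > 0`, `0 < κ < 1` and `c₀` real. The number `V(B)` of the `x ∈ K`, `x ≠ 0, 1`, of height at most `B`, with
`|x - z_w|_w < η` for all `w` and `N(x) ≤ (3 - κ) h(x) + c₀` is finite, and
`(log V(B) - d (2 - κ) log B) / √(log B / log log B)` tends to `√(24 κ d)`. -/
theorem result : ∀ (K : Type) [Field K] [NumberField K] (z : InfinitePlace K → ℂ) (η κ c₀ : ℝ),
    (∀ w : InfinitePlace K, w.IsReal → (z w).im = 0) → 0 < η → 0 < κ → κ < 1 →
    (∀ B : ℝ, (Points z η κ c₀ B).Finite) ∧
    Tendsto (fun B : ℝ => (Real.log ((Points z η κ c₀ B).ncard : ℝ) -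
        Module.finrank ℚ K * (2 - κ) * Real.log B) / √(Real.log B / Real.log (Real.log B))) atTop
      (𝓝 √(24 * κ * Module.finrank ℚ K)) := by
  intro K _ _ z η κ c₀ hz hη h1 h2
  exact Pool.Agent.N906.QP.Aff.xq_limit z η κ c₀ hz hη h1 h2

end Pool.Agent.Results.MP_dc323a_nt.LocalSecondOrder
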