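import Mathlib
import Pool.Agent.N251.GA.Inst

/-!
# The abc conjecture over the Gaussian integers is equivalent to its consequence for the radical of
`x ^ p - y ^ q`

The abc conjecture over `ℤ[i]` implies, for all coprime Gaussian integers `x`, `y` with
`x ^ p ≠ y ^ q`,

  `rad (x ^ p - y ^ q) ≥ κ M ^ (1 - 1/p - 1/q - ε)`, `M = max (|x| ^ p, |y| ^ q)`,

an inequality in which only one of the three members of the triple contributes its radical. We prove
the converse for `(p, q) = (k, 2)` for every `k ≥ 3`, for `(3, 3)` and `(4, 4)`, and for all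
signatures obtained from these by three rules, for instance for

  `(k m, 2 m)` (`k ≥ 3`), `((k + 1) m, 2 k m)` (`k ≥ 2`), `((k + 2) m, 2 k m)` (`k ≥ 3`).

It is enough to know the inequality for `N ∣ x ^ p - y ^ q`, where `N` is fixed. In the same way the
abc conjecture over `ℤ[i]` follows, for every `n ≥ 2`, from the inequality
`rad (u v) ≥ κ max (|u|, |v|) ^ (1 - 1/n - ε)` for the coprime `u`, `v` whose sum is an `n`-th power.
-/

set_option autoImplicit false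

namespace Pool.Agent.Results.MP_dc323a_nt.RadicalsOfDifferences

open Pool.Agent.N251.GA (arG arG_prod abcG_iff AbcG radic' sig_list low_comap ABC)

/-- `rad(n)`: the product of `|Q|` over the Gaussian primes `Q` dividing `n`, one from each class of
associates, namely the one with `Re Q > 0` and `Im Q ≥ 0` -/
noncomputable def rad (n : GaussianInt) : ℝ :=
  ∏ᶠ Q ∈ {Q : GaussianInt | Prime Q ∧ Q ∣ n ∧ (0 < Q.re ∧ 0 ≤ Q.im)}, ‖GaussianInt.toComplex Q‖

/-- the abc conjecture over `ℤ[i]` -/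
def Abc : Prop :=
  ∀ ε : ℝ, 0 < ε → ∃ κ : ℝ, 0 < κ ∧ ∀ a b c : GaussianInt, IsCoprime a b → a + b = c →
    a * b * c ≠ 0 →
      κ * (max ‖GaussianInt.toComplex a‖ (max ‖GaussianInt.toComplex b‖
        ‖GaussianInt.toComplex c‖)) ^ (1 - ε) ≤ rad (a * b * c)

/-- the inequality `rad (x ^ p - y ^ q) ≥ κ M ^ (1 - 1/p - 1/q - ε)`, where `M = max (|x| ^ p, |y| ^ q)`,
for all coprime Gaussian integers `x`, `y` with `x ^ p ≠ y ^ q` and `N ∣ x ^ p - y ^ q` -/
def OneCusp (p q N : ℕ) : Prop :=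
  ∀ ε : ℝ, 0 < ε → ∃ κ : ℝ, 0 < κ ∧ ∀ x y : GaussianInt, IsCoprime x y → x ^ p ≠ y ^ q →
    (N : GaussianInt) ∣ x ^ p - y ^ q →
      κ * (max (‖GaussianInt.toComplex x‖ ^ p) (‖GaussianInt.toComplex y‖ ^ q)) ^
        (1 - 1 / (p : ℝ) - 1 / (q : ℝ) - ε) ≤ rad (x ^ p - y ^ q)

/-- the inequality `rad (u v) ≥ κ M ^ (1 - 1/n - ε)`, where `M = max (|u|, |v|)`, for all coprime
nonzero Gaussian integers `u`, `v` whose sum is an `n`-th power, with `N ∣ u` -/
def TwoCusps (n N : ℕ) : Prop :=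
  ∀ ε : ℝ, 0 < ε → ∃ κ : ℝ, 0 < κ ∧ ∀ u v x : GaussianInt, IsCoprime u v → u ≠ 0 → v ≠ 0 →
    u + v = x ^ n → (N : GaussianInt) ∣ u →
      κ * (max ‖GaussianInt.toComplex u‖ ‖GaussianInt.toComplex v‖) ^ (1 - 1 / (n : ℝ) - ε) ≤
        rad (u * v)

/-- the signatures: the smallest set of pairs which contains `(k, 2)` for all `k ≥ 3`, `(3, 3)` and
`(4, 4)`, is closed under exchanging the two numbers and under common multiples, and contains with
`(p, q)` the pair `(a + b, p a)` for all `a, b ≥ 1` with `p a = q b`, and the pair `(p, q (p + 1))` -/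
abbrev Signature : ℕ → ℕ → Prop := Pool.Agent.N251.GA.Signature

theorem abc_iff : Abc ↔ ABC arG fun _ => True := by
  rw [← abcG_iff fun _ _ _ => True]
  constructor
  · intro h ε hε
    obtain ⟨κ, hκ0, hκ⟩ := h ε hε
    exact ⟨κ, hκ0, fun a b c h1 h2 h3 _ => hκ a b c h1 h2 h3⟩
  · intro h ε hε
    obtain ⟨κ, hκ0, hκ⟩ := h ε hε
    exact ⟨κ, hκ0, fun a b c h1 h2 h3 => hκ a b c h1 h2 h3 trivial⟩

theorem one_iff (p q N : ℕ) : OneCusp p q N ↔ Pool.Agent.N251.GA.OneCusp arG p q N := by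
  constructor
  · intro h ε hε
    obtain ⟨κ, hκ0, hκ⟩ := h ε hε
    refine ⟨κ, hκ0, ?_⟩
    rintro ⟨x, y⟩ ⟨h1, h2, h3⟩
    rw [arG_prod]
    exact hκ x y h1 h2 h3
  · intro h ε hε
    obtain ⟨κ, hκ0, hκ⟩ := h ε hε
    refine ⟨κ, hκ0, fun x y h1 h2 h3 => ?_⟩
    have h4 := hκ (x, y) ⟨h1, h2, h3⟩
    rw [arG_prod] at h4
    exact h4

theorem two_iff (n N : ℕ) : TwoCusps n N ↔ Pool.Agent.N251.GA.TwoCusps arG n N := by
  constructor
  · intro h ε hε
    obtain ⟨κ, hκ0, hκ⟩ := h ε hε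
    refine ⟨κ, hκ0, ?_⟩
    rintro ⟨u, v, x⟩ ⟨h1, h2, h3, h4, h5⟩
    rw [arG_prod]
    exact hκ u v x h1 h2 h3 h4 h5
  · intro h ε hε
    obtain ⟨κ, hκ0, hκ⟩ := h ε hε
    refine ⟨κ, hκ0, fun u v x h1 h2 h3 h4 h5 => ?_⟩
    have h6 := hκ (u, v, x) ⟨h1, h2, h3, h4, h5⟩
    rw [arG_prod] at h6
    exact h6

/-- **The abc conjecture over `ℤ[i]` and the radical of `x ^ p - y ^ q`.** Let `N ≥ 1`.

* For every signature `(p, q)` of the set above the abc conjecture over `ℤ[i]` holds if and only if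
  for every `ε > 0` there is `κ > 0` with `rad (x ^ p - y ^ q) ≥ κ M ^ (1 - 1/p - 1/q - ε)`,
  `M = max (|x| ^ p, |y| ^ q)`, for all coprime Gaussian integers `x`, `y` with `x ^ p ≠ y ^ q` and
  `N ∣ x ^ p - y ^ q`.
* For every `n ≥ 2` it holds if and only if for every `ε > 0` there is `κ > 0` with
  `rad (u v) ≥ κ max (|u|, |v|) ^ (1 - 1/n - ε)` for all coprime nonzero Gaussian integers `u`, `v`
  whose sum is an `n`-th power, with `N ∣ u`.
* The set of signatures contains `(k m, 2 m)` for `k ≥ 3`, `(3 m, 3 m)`, `(4 m, 4 m)`,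
  `((k + 1) m, 2 k m)` for `k ≥ 2` and `((k + 2) m, 2 k m)` for `k ≥ 3`, where `m ≥ 1`. -/
theorem result (N : ℕ) (hN : 1 ≤ N) :
    (∀ p q : ℕ, Signature p q → (Abc ↔ OneCusp p q N)) ∧
      (∀ n : ℕ, 2 ≤ n → (Abc ↔ TwoCusps n N)) ∧
      ∀ m : ℕ, 1 ≤ m → (∀ k : ℕ, 3 ≤ k → Signature (k * m) (2 * m)) ∧
        Signature (3 * m) (3 * m) ∧ Signature (4 * m) (4 * m) ∧
        (∀ k : ℕ, 2 ≤ k → Signature ((k + 1) * m) (2 * k * m)) ∧
        ∀ k : ℕ, 3 ≤ k → Signature ((k + 2) * m) (2 * k * m) := by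
  obtain ⟨h1, h2⟩ := radic' arG N hN
  refine ⟨fun p q hpq => ?_, fun n hn => ?_, fun m hm => sig_list m hm⟩
  · rw [abc_iff, one_iff]; exact h1 p q hpq
  · rw [abc_iff, two_iff]; exact h2 n hn

end Pool.Agent.Results.MP_dc323a_nt.RadicalsOfDifferences
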