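import Mathlib
import Pool.Agent.N251.GA.Inst

/-!
# The abc conjecture over the Gaussian integers and the generalized Fermat equations of spherical
signature

Let `p, q, r ≥ 1` with `1/p + 1/q + 1/r > 1`: the signatures `(1, q, r)`, `(2, 2, n)`, `(2, 3, 3)`,
`(2, 3, 4)`, `(2, 3, 5)` and their permutations. There are nonzero rational integers `A, B, C` with
`A B C ∣ 1728` such that the abc conjecture over `ℤ[i]` holds if and only if it holds for the coprime
solutions in Gaussian integers of the single equation `A x ^ p + B y ^ q = C z ^ r`, that is for the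
triples `a + b = c` with `a = A x ^ p`, `b = B y ^ q`, `c = C z ^ r`; one may moreover ask that a given
`N ≥ 1` divides one of `a, b, c`.
-/

set_option autoImplicit false

namespace Pool.Agent.Results.MP_dc323a_nt.SphericalSignatures

open Pool.Agent.N251.GA

/-- `rad(n)`: the product of `|Q|` over the Gaussian primes `Q` dividing `n`, one from each class of
associates, namely the one with `Re Q > 0` and `Im Q ≥ 0` -/
noncomputable def rad (n : GaussianInt) : ℝ :=
  ∏ᶠ Q ∈ {Q : GaussianInt | Prime Q ∧ Q ∣ n ∧ (0 < Q.re ∧ 0 ≤ Q.im)}, ‖GaussianInt.toComplex Q‖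

/-- the inequality of Q1, for every `ε > 0`, for the coprime triples `a + b = c`, `a b c ≠ 0`, of
Gaussian integers with the property `T` -/
def Abc (T : GaussianInt → GaussianInt → GaussianInt → Prop) : Prop :=
  ∀ ε : ℝ, 0 < ε → ∃ κ : ℝ, 0 < κ ∧ ∀ a b c : GaussianInt, IsCoprime a b → a + b = c →
    a * b * c ≠ 0 → T a b c →
      κ * (max ‖GaussianInt.toComplex a‖ (max ‖GaussianInt.toComplex b‖
        ‖GaussianInt.toComplex c‖)) ^ (1 - ε) ≤ rad (a * b * c)

/-- the members of the triple are `A x ^ p`, `B y ^ q`, `C z ^ r` -/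
def Solution (p q r : ℕ) (A B C : ℤ) (a b c : GaussianInt) : Prop :=
  ∃ x y z : GaussianInt, a = A * x ^ p ∧ b = B * y ^ q ∧ c = C * z ^ r

/-- **The abc conjecture over `ℤ[i]` is equivalent to its restriction to the solutions of one
generalized Fermat equation of each spherical signature.** -/
theorem result (p q r : ℕ) (hp : 1 ≤ p) (hq : 1 ≤ q) (hr : 1 ≤ r)
    (h : p * q * r < q * r + p * r + p * q) :
    ∃ A B C : ℤ, A ≠ 0 ∧ B ≠ 0 ∧ C ≠ 0 ∧ A * B * C ∣ 1728 ∧ ∀ N : ℕ, 1 ≤ N →
      ((Abc fun a b c => Solution p q r A B C a b c ∧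
          ((N : GaussianInt) ∣ a ∨ (N : GaussianInt) ∣ b ∨ (N : GaussianInt) ∣ c)) ↔
        Abc fun _ _ _ => True) := by
  obtain ⟨A, B, C, hA, hB, hC, hd, hh⟩ := spherical' p q r hp hq hr h
  refine ⟨A, B, -C, hA, hB, neg_ne_zero.2 hC, ?_, fun N hN => ?_⟩
  · rw [mul_neg, neg_dvd]; exact hd
  · have h1 := hh GaussianInt arG N hN
    have e1 : AbcG (fun _ _ _ => True) ↔ ABC arG fun _ => True := abcG_iff _
    have e2 : AbcG (fun a b c => Solution p q r A B (-C) a b c ∧
        ((N : GaussianInt) ∣ a ∨ (N : GaussianInt) ∣ b ∨ (N : GaussianInt) ∣ c)) ↔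
        ABC arG (Sg p q r A B C N) := by
      rw [abcG_iff]
      have e3 : (fun t : GaussianInt × GaussianInt × GaussianInt =>
          Solution p q r A B (-C) t.1 t.2.1 (-t.2.2) ∧
          ((N : GaussianInt) ∣ t.1 ∨ (N : GaussianInt) ∣ t.2.1 ∨ (N : GaussianInt) ∣ -t.2.2)) =
          Sg p q r A B C N := by
        funext t
        apply propext
        unfold Sg Solution
        rw [dvd_neg]
        apply and_congr_left'
        constructor
        · rintro ⟨x, y, z, h1, h2, h3⟩
          refine ⟨x, y, z, h1, h2, ?_⟩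
          push_cast at h3
          linear_combination -h3
        · rintro ⟨x, y, z, h1, h2, h3⟩
          refine ⟨x, y, z, h1, h2, ?_⟩
          push_cast
          linear_combination -h3
      rw [e3]
    exact (e2.trans h1).trans e1.symm

end Pool.Agent.Results.MP_dc323a_nt.SphericalSignatures
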